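import Pool.Agent.Lib.MP_a60258_s6.Iface

/-!
# Module FIB: sums over the labelled graphs with given left and right parts
-/

set_option autoImplicit false

open Finset

namespace A602.S6.H05

theorem ifac_mk (m m' : Fin 3 → ℕ) (y : Fin 3 × Fin 3 → ℕ) :
    ifac (mk m m' y) = ifac m * ifac m' * ifac y := by
  unfold ifac mk
  rw [Fintype.prod_sum_type, Fintype.prod_sum_type, mul_assoc]
  rfl

theorem sum_mk (m m' : Fin 3 → ℕ) (y : Fin 3 × Fin 3 → ℕ) :
    ∑ e, mk m m' y e = ∑ i, m i + ∑ i, m' i + ∑ c, y c := by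
  unfold mk
  rw [Fintype.sum_sum_type, Fintype.sum_sum_type, add_assoc]
  rfl

/-- Module FIB. -/
theorem fib : FibStatement := by
  intro m m' k F
  unfold Lf
  have h1 : ∀ x : Pr → ℕ, (∀ i, x (.inl i) = m i) ∧ (∀ i, x (.inr (.inl i)) = m' i) →
      x = mk m m' fun c => x (.inr (.inr c)) := by
    rintro x ⟨h, h'⟩
    funext e
    rcases e with i | i | c
    · exact h i
    · exact h' i
    · rfl
  rw [Finset.mul_sum]
  have h2 : ∑ x ∈ Finset.piAntidiag (Finset.univ : Finset Pr) (∑ i, m i + ∑ i, m' i + k),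
      ifac x * (if (∀ i, x (.inl i) = m i) ∧ (∀ i, x (.inr (.inl i)) = m' i) then F x else 0)
      = ∑ x ∈ (Finset.piAntidiag (Finset.univ : Finset Pr) (∑ i, m i + ∑ i, m' i + k)).filter
          (fun x => (∀ i, x (.inl i) = m i) ∧ (∀ i, x (.inr (.inl i)) = m' i)), ifac x * F x := by
    rw [Finset.sum_filter]
    refine Finset.sum_congr rfl fun x _ => ?_
    split_ifs
    · rfl
    · rw [mul_zero]
  rw [h2]
  refine Finset.sum_nbij' (fun x c => x (.inr (.inr c))) (fun y => mk m m' y) ?_ ?_ ?_ ?_ ?_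
  · intro x hx
    rw [Finset.mem_filter, Finset.mem_piAntidiag] at hx
    rw [Finset.mem_piAntidiag]
    refine ⟨?_, fun c _ => Finset.mem_univ c⟩
    have h3 := hx.1.1
    rw [h1 x hx.2] at h3
    rw [sum_mk] at h3
    exact Nat.add_left_cancel h3
  · intro y hy
    rw [Finset.mem_piAntidiag] at hy
    rw [Finset.mem_filter, Finset.mem_piAntidiag]
    refine ⟨⟨?_, fun c _ => Finset.mem_univ c⟩, fun i => rfl, fun i => rfl⟩
    rw [sum_mk, hy.1]
  · intro x hx
    rw [Finset.mem_filter] at hx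
    exact (h1 x hx.2).symm
  · intro y _
    rfl
  · intro x hx
    rw [Finset.mem_filter] at hx
    change ifac x * F x = ifac m * ifac m' *
      (ifac (fun c => x (Sum.inr (Sum.inr c))) * F (mk m m' fun c => x (Sum.inr (Sum.inr c))))
    rw [← h1 x hx.2, ← mul_assoc, ← ifac_mk, ← h1 x hx.2]

end A602.S6.H05
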