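import Pool.Agent.Lib.MP_a60258_s6.Iface

/-!
# Module WRD: words and contents
-/

set_option autoImplicit false

open Finset

namespace A602.S6.H05

theorem ct_cons {α : Type} [Fintype α] [DecidableEq α] {n : ℕ} (a : α) (u : Fin n → α) :
    ct (Fin.cons a u : Fin (n + 1) → α) = Pi.single a 1 + ct u := by
  funext b
  unfold ct
  rw [Pi.add_apply, Finset.card_filter, Fin.sum_univ_succ, Finset.card_filter]
  simp only [Fin.cons_zero, Fin.cons_succ]
  congr 1
  by_cases h : a = b
  · subst h
    simp
  · rw [if_neg h, Pi.single_eq_of_ne (Ne.symm h)]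

/-- Module WRD. -/
theorem wrd (hS : ShfStatement) : WrdStatement := by
  intro α _ _ n
  induction n with
  | zero =>
    intro F
    have h1 : (Finset.univ : Finset (Fin 0 → α)) = {Fin.elim0} := by
      ext u
      simp only [Finset.mem_univ, Finset.mem_singleton, true_iff]
      funext i
      exact Fin.elim0 i
    have h2 : ct (Fin.elim0 : Fin 0 → α) = 0 := by
      funext a
      simp [ct]
    rw [h1, Finset.sum_singleton, h2]
    simp [Lf, ifac]
  | succ n ih =>
    intro F
    have h1 : ∑ u : Fin (n + 1) → α, F (ct u)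
        = ∑ a : α, ∑ u : Fin n → α, F (Pi.single a 1 + ct u) := by
      rw [← (Fin.consEquiv (fun _ : Fin (n + 1) => α)).sum_comp, Fintype.sum_prod_type]
      refine Finset.sum_congr rfl fun a _ => Finset.sum_congr rfl fun u _ => ?_
      have : ct (Fin.consEquiv (fun _ : Fin (n + 1) => α) (a, u)) = Pi.single a 1 + ct u :=
        ct_cons a u
      rw [this]
    rw [h1]
    have h2 : ∀ a : α, ∑ u : Fin n → α, F (Pi.single a 1 + ct u)
        = (n.factorial : ℝ) * Lf (n + 1) fun y => (y a : ℝ) * F y := by
      intro a
      refine (ih (fun y => F (Pi.single a 1 + y))).trans ?_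
      rw [hS α (Pi.single a 1) n F]
      have h3 : ∑ b, (Pi.single a 1 : α → ℕ) b = 1 := by
        rw [Finset.sum_pi_single']
        simp
      rw [h3]
      congr 1
      unfold Lf
      refine Finset.sum_congr rfl fun y _ => ?_
      congr 1
      change (∏ b, ((y b).descFactorial ((Pi.single a 1 : α → ℕ) b) : ℝ)) * F y = (y a : ℝ) * F y
      congr 1
      rw [Finset.prod_eq_single a]
      · simp
      · intro b _ hb
        rw [Pi.single_eq_of_ne hb]
        simp
      · intro h
        exact absurd (Finset.mem_univ a) h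
    simp only [h2]
    rw [← Finset.mul_sum]
    have h4 : ∑ a : α, Lf (n + 1) (fun y => (y a : ℝ) * F y) = ((n + 1 : ℕ) : ℝ) * Lf (n + 1) F := by
      unfold Lf
      rw [Finset.sum_comm, Finset.mul_sum]
      refine Finset.sum_congr rfl fun x hx => ?_
      have hx1 : ∑ a, x a = n + 1 := (Finset.mem_piAntidiag.1 hx).1
      have hx2 : ∑ a, (x a : ℝ) = ((n + 1 : ℕ) : ℝ) := by
        rw [← hx1]
        push_cast
        rfl
      rw [← hx2, Finset.sum_mul]
      refine Finset.sum_congr rfl fun a _ => ?_
      ring
    rw [h4, Nat.factorial_succ]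
    push_cast
    ring

end A602.S6.H05
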